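import Mathlib
import Pool.Agent.H373R2.T7.RS2

/-!
Primes `n^3 + k` with `n` restricted to an arbitrary set `S` of integers up to `x`: for all but a proportion `1 / log^U x` of the
shifts up to `A` (`A` of the order of magnitude of `x^3`), and more generally of the tuples of shifts, the number of `n ∈ S` with
all `n^3 + a_i` prime is given by the number of `n ∈ S` with all `n^3 + a_i` free of primes `≤ z`, `z` a power of `log x`.
-/

namespace Pool.Agent.Results.MP_4d57ea_nt.RestrictedArguments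
open Finset Polynomial Pool.Agent.H373R2.T7.RS

open Classical in
theorem result (k : ℕ) (B : ℕ) (hB : 1 ≤ B) (U : ℕ) (ε : ℝ) (hε : 0 < ε) :
    ∃ B₀ : ℕ, ∀ E : ℕ, ∃ x₀ : ℕ, ∀ x : ℕ, x₀ ≤ x → ∀ A : ℕ, A ≤ B * x ^ 3 → x ^ 3 ≤ B * A →
      ∀ z : ℕ, Real.log x ^ B₀ ≤ z → (z : ℝ) ≤ Real.log x ^ E → ∀ S : Finset ℕ, S ⊆ Icc 1 x →
      (((Fintype.piFinset (fun _ : Fin k => Icc 1 A)).filter (fun a =>
        ¬ |(primesIn (fun n => n ^ 3) a S : ℝ) - expectedIn (fun n => n ^ 3) 3 a z x S| ≤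
          ε * expectedIn (fun n => n ^ 3) 3 a z x S + x / Real.log x ^ U)).card : ℝ) ≤ (A : ℝ) ^ k / Real.log x ^ U :=
  shifts_of_one k (fun n => n ^ 3) (X ^ 3) (fun n => by simp) 3 (natDegree_X_pow 3) (by norm_num)
    (by rw [leadingCoeff_X_pow]; norm_num) B hB U ε hε

end Pool.Agent.Results.MP_4d57ea_nt.RestrictedArguments
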