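import Mathlib
import Pool.Agent.H373R2.T4.Special
import Pool.Agent.H373R2.SH.ShiftMain

/-!
Primes `n^3 + a` for shifts `a` up to `A`, where `A` is only required to be at least `x^(5/4+δ)`: for every number `k`
of shifts and every `θ < 1`, a positive proportion of all `(a_1, ..., a_k)` in `[1, A]^k` has at least `θ` times the
predicted number of `n ≤ x` with all `n^3 + a_i` prime (with the singular product cut at `z`).
-/

namespace Pool.Agent.Results.MP_4d57ea_nt.ShortShiftProportion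
open Finset Pool.Agent.H373R2.SH

/-- the number of residues `r` mod `p` such that `p` divides `r^3 + a_i` for some `i` -/
def nu {k : ℕ} (a : Fin k → ℕ) (p : ℕ) : ℕ := #{r ∈ range p | ∃ i, p ∣ r ^ 3 + a i}

/-- the product over the primes `p ≤ z` of `(1 - 1/p)^(-k) (1 - nu(p)/p)` -/
noncomputable def HL {k : ℕ} (a : Fin k → ℕ) (z : ℕ) : ℝ :=
  ∏ p ∈ (range (z + 1)).filter Nat.Prime, (((1 - 1 / (p : ℝ)) ^ k)⁻¹ * (1 - (nu a p : ℝ) / p))

/-- the number of `1 ≤ n ≤ x` such that all the `n^3 + a_i` are prime -/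
def P {k : ℕ} (a : Fin k → ℕ) (x : ℕ) : ℕ := #{n ∈ Icc 1 x | ∀ i, (n ^ 3 + a i).Prime}

lemma HL_eq {k : ℕ} (a : Fin k → ℕ) (z : ℕ) : sgS (fun _ n => n ^ 3) a z = HL a z := by
  unfold sgS HL ufS dnS omS nu
  apply prod_congr rfl; intro p _
  simp only [add_comm (a _)]

lemma P_eq {k : ℕ} (a : Fin k → ℕ) (x : ℕ) : cntS (fun _ n => n ^ 3) a x = P a x := by
  unfold cntS P
  simp only [add_comm (a _)]

open Classical in
theorem result (k : ℕ) (hk : 1 ≤ k) (δ : ℝ) (hδ0 : 0 < δ) (hδ1 : δ < 3 / 4) (θ : ℝ) (hθ0 : 0 < θ) (hθ1 : θ < 1) :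
    ∃ c : ℝ, 0 < c ∧ ∃ y₀ x₀ : ℕ, ∀ x : ℕ, x₀ ≤ x → ∀ A : ℕ, (x : ℝ) ^ (5 / 4 + δ) ≤ A → A ≤ x ^ 3 →
      ∀ z : ℕ, y₀ ≤ z → z ^ 6 ≤ A →
      c * (A : ℝ) ^ k ≤ #((Fintype.piFinset fun _ : Fin k => Icc 1 A).filter (fun a =>
        Function.Injective a ∧ (∀ i m, a i ≠ m ^ 3) ∧ θ * HL a z * (x / (3 * Real.log x) ^ k) ≤ P a x ∧
        c * (x / (Real.log x) ^ k) ≤ P a x)) := by
  obtain ⟨c, hc, y₀, x₀, h⟩ := Pool.Agent.H373R2.T4.near_cube k hk δ hδ0 hδ1 θ hθ0 hθ1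
  obtain ⟨x₁, hx₁⟩ := log_pow_small k (c / 2) (by positivity)
  refine ⟨c, hc, y₀, x₀ + x₁ + 3, fun x hx A hA1 hA2 z hz hz6 => ?_⟩
  refine (h x (by omega) A hA1 hA2 z hz hz6).trans ?_
  · rw [Nat.cast_le]
    apply card_le_card
    intro a ha
    rw [mem_filter] at ha ⊢
    obtain ⟨h1, h2, h3, h4⟩ := ha
    rw [HL_eq, P_eq] at h2
    rw [P_eq] at h3
    refine ⟨h1, h4, ?_, h2, h3⟩
    intro i m ham
    have hlogx : 0 < Real.log x := Real.log_pos (by exact_mod_cast (by omega : 1 < x))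
    have h5 := hx₁ x (by omega)
    have h6 : (2 : ℝ) ≤ P a x := by
      refine le_trans ?_ h3
      rw [mul_div_assoc', le_div_iff₀ (by positivity)]
      linarith
    have h7 : 1 < P a x := by exact_mod_cast h6
    unfold P at h7
    obtain ⟨n, hn, hn1⟩ := exists_mem_ne h7 1
    rw [mem_filter, mem_Icc] at hn
    have hp := hn.2 i
    rw [ham] at hp
    have hm : m ≠ 0 := by
      intro h0
      have h8 := (mem_Sx.1 h1 i).1
      rw [ham, h0] at h8
      norm_num at h8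
    have hdvd : n + m ∣ n ^ 3 + m ^ 3 := Odd.nat_add_dvd_pow_add_pow n m (by decide)
    rcases (Nat.dvd_prime hp).1 hdvd with h8 | h8
    · omega
    · have h9 : 2 ≤ n := by omega
      have h10 : m ≤ m ^ 3 := Nat.le_self_pow (by norm_num) m
      have h11 : n < n ^ 3 := by nlinarith [Nat.pow_le_pow_left h9 2]
      omega

end Pool.Agent.Results.MP_4d57ea_nt.ShortShiftProportion
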