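import Pool.Agent.H361R2.PA.Multi

set_option autoImplicit false
set_option maxHeartbeats 4000000

namespace Pool.Agent.Results.MP_4d57ea_nt.SimultaneousPolynomials

open Finset Pool.Agent.H361R2.PA

theorem poly_bound (g : Polynomial ℤ) : ∃ T : ℝ, ∀ L : ℝ, T ≤ L → 1 ≤ L → ∀ m : ℤ,
    |(m : ℝ)| ≤ L ^ 2 → |((g.eval m : ℤ) : ℝ)| ≤ Real.exp L := by
  set S : ℝ := ∑ j ∈ range (g.natDegree + 1), |(g.coeff j : ℝ)| with hS
  have hS0 : 0 ≤ S := sum_nonneg fun _ _ => abs_nonneg _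
  refine ⟨S * ((Nat.factorial (2 * g.natDegree + 1) : ℕ) : ℝ), fun L hL hL1 m hm => ?_⟩
  have h1 : ((g.eval m : ℤ) : ℝ) = ∑ j ∈ range (g.natDegree + 1), (g.coeff j : ℝ) * (m : ℝ) ^ j := by
    rw [Polynomial.eval_eq_sum_range]
    push_cast
    rfl
  rw [h1]
  have h2 : |∑ j ∈ range (g.natDegree + 1), (g.coeff j : ℝ) * (m : ℝ) ^ j| ≤
      ∑ j ∈ range (g.natDegree + 1), |(g.coeff j : ℝ)| * L ^ (2 * g.natDegree) := by
    refine (abs_sum_le_sum_abs _ _).trans (sum_le_sum fun j hj => ?_)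
    rw [abs_mul, abs_pow]
    apply mul_le_mul_of_nonneg_left _ (abs_nonneg _)
    rw [mem_range] at hj
    calc |(m : ℝ)| ^ j ≤ (L ^ 2) ^ j := by gcongr
      _ = L ^ (2 * j) := by rw [pow_mul]
      _ ≤ L ^ (2 * g.natDegree) := pow_le_pow_right₀ hL1 (by omega)
  refine h2.trans ?_
  rw [← sum_mul]
  have h3 := Real.pow_div_factorial_le_exp L (by linarith) (2 * g.natDegree + 1)
  have hf : (0 : ℝ) < ((Nat.factorial (2 * g.natDegree + 1) : ℕ) : ℝ) := by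
    exact_mod_cast Nat.factorial_pos _
  refine le_trans ?_ h3
  rw [le_div_iff₀ hf]
  have h4 : 0 ≤ L ^ (2 * g.natDegree) := by positivity
  calc S * L ^ (2 * g.natDegree) * ((Nat.factorial (2 * g.natDegree + 1) : ℕ) : ℝ)
      = (S * ((Nat.factorial (2 * g.natDegree + 1) : ℕ) : ℝ)) * L ^ (2 * g.natDegree) := by ring
    _ ≤ L * L ^ (2 * g.natDegree) := by gcongr
    _ = L ^ (2 * g.natDegree + 1) := by ring

/-- for finitely many polynomials `g_i` with `g_i(0) = 0` there is a noncube `k` in every interval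
of length `X` such that no `g_i(m) + k`, `|m| ≤ c log X (log₂ X)^2 log₄ X / (log₃ X)^2`, is
prime -/
theorem result : ∀ (s : ℕ) (g : Fin s → Polynomial ℤ), (∀ i, (g i).coeff 0 = 0) →
    ∃ c : ℝ, 0 < c ∧ ∃ X₀ : ℝ, ∀ X : ℝ, X₀ ≤ X → ∀ z : ℤ,
    ∃ k : ℤ, (z : ℝ) < k ∧ (k : ℝ) ≤ z + X ∧ (∀ t : ℤ, t ^ 3 ≠ k) ∧
      ∀ i, ∀ m : ℤ, |(m : ℝ)| ≤ c * (Real.log X * Real.log (Real.log X) ^ 2 *
        Real.log (Real.log (Real.log (Real.log X))) / Real.log (Real.log (Real.log X)) ^ 2) →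
        ¬ Prime ((g i).eval m + k) := by
  intro s g hg
  obtain ⟨c, hc, hc1, X₀, h⟩ := multi s 1 7 (by norm_num)
  obtain ⟨X₁, hnum⟩ := num2 1
  choose T hT using fun i => poly_bound (g i)
  refine ⟨c, hc, max (max X₀ X₁) (Real.exp (∑ i, |T i|)), fun X hX z => ?_⟩
  have hX0 : X₀ ≤ X := ((le_max_left _ _).trans (le_max_left _ _)).trans hX
  have hX1 : X₁ ≤ X := ((le_max_right _ _).trans (le_max_left _ _)).trans hX
  have hX2 : Real.exp (∑ i, |T i|) ≤ X := (le_max_right _ _).trans hX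
  obtain ⟨g0, g1, g2, g3, g4, g5, g6, g7⟩ := hnum X hX1
  have hTL : ∀ i, T i ≤ Real.log X := by
    intro i
    have h1 : ∑ i, |T i| ≤ Real.log X := by
      rw [← Real.log_exp (∑ i, |T i|)]
      exact Real.log_le_log (Real.exp_pos _) hX2
    have h2 : |T i| ≤ ∑ i, |T i| := 
      Finset.single_le_sum (f := fun i => |T i|) (fun _ _ => abs_nonneg _) (mem_univ i)
    have h3 := le_abs_self (T i)
    linarith
  have hFF : FF 1 X = Real.log X * Real.log (Real.log X) ^ 2 *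
        Real.log (Real.log (Real.log (Real.log X))) /
        Real.log (Real.log (Real.log X)) ^ 2 := by
    unfold FF
    rw [pow_one]
  have hFL : c * FF 1 X ≤ Real.log X ^ 2 := by
    rw [hFF]
    set u₂ := Real.log (Real.log X) with hu₂
    set u₃ := Real.log u₂ with hu₃
    set u₄ := Real.log u₃ with hu₄
    have hu₃0 : 0 < u₃ := by linarith
    have hu₂0 : 0 < u₂ := by linarith
    have hu₄0 : 0 < u₄ := by linarith
    have hL0 : 0 < Real.log X := by linarith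
    have e2 : u₄ / u₃ ^ 2 ≤ 1 := by
      rw [div_le_one (by positivity)]
      nlinarith
    have e3 : Real.log X * u₂ ^ 2 * u₄ / u₃ ^ 2 = Real.log X * u₂ ^ 2 * (u₄ / u₃ ^ 2) := by ring
    have e4 : u₂ ^ 2 ≤ Real.log X := by
      calc u₂ ^ 2 ≤ u₂ ^ 3 := pow_le_pow_right₀ (by linarith) (by norm_num)
        _ ≤ _ := g6
    calc c * (Real.log X * u₂ ^ 2 * u₄ / u₃ ^ 2) ≤ 1 * (Real.log X * u₂ ^ 2 * u₄ / u₃ ^ 2) := by
          gcongr
      _ = Real.log X * u₂ ^ 2 * (u₄ / u₃ ^ 2) := by rw [one_mul, e3]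
      _ ≤ Real.log X * Real.log X * 1 := by gcongr
      _ = _ := by ring
  obtain ⟨k, hk1, hk2, hk3, hk4⟩ := h X hX0 (fun i m => (g i).eval m) (by
    intro i m
    have h1 : Polynomial.X ∣ g i := Polynomial.X_dvd_iff.2 (hg i)
    obtain ⟨q, hq⟩ := h1
    show m ∣ (g i).eval m
    rw [hq, Polynomial.eval_mul, Polynomial.eval_X]
    exact dvd_mul_right _ _) (by
    intro i m hm
    rw [pow_one]
    exact hT i (Real.log X) (hTL i) (by linarith) m (hm.trans hFL)) 2 z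
  refine ⟨k, by linarith, hk2, ?_, ?_⟩
  · intro t ht
    have h3 := hk3 7 (by norm_num) (dvd_refl 7)
    rw [← ht] at h3
    have h4 : t % 7 = 0 ∨ t % 7 = 1 ∨ t % 7 = 2 ∨ t % 7 = 3 ∨ t % 7 = 4 ∨ t % 7 = 5 ∨ t % 7 = 6 := by
      omega
    have h5 : (t ^ 3) % 7 = 0 ∨ (t ^ 3) % 7 = 1 ∨ (t ^ 3) % 7 = 6 := by
      rcases h4 with h4 | h4 | h4 | h4 | h4 | h4 | h4 <;>
        simp [pow_succ, Int.mul_emod, h4]
    push_cast at h3
    omega
  · intro i m hm
    have h3 := hk4 i m (by rw [hFF]; exact hm)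
    rw [add_comm] at h3
    exact h3

end Pool.Agent.Results.MP_4d57ea_nt.SimultaneousPolynomials
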